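import Pool.Agent.N328.CD.Defs

/-! CD/PAR (subtask 8695 of helper328): a set of far edges with the right parities. -/

set_option autoImplicit false
set_option linter.unusedSectionVars false

namespace Pool.Agent.N887.CD
open Finset Pool.Agent.H160R2.HF Pool.Agent.N328.LF Pool.Agent.N328.CD

section det
variable {V E : Type} [Fintype V] [Fintype E] [DecidableEq V] [DecidableEq E]

theorem even_card' (G : OrGraph V E) (hc : G.Cubic) : Even (Fintype.card V) := by
  have h := G.handshake univ univ
  rw [Finset.sum_congr rfl (fun v _ => hc v)] at h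
  have h0 : G.cut (univ : Finset V) = ∅ := by
    ext e; simp [OrGraph.cut]
  rw [h0] at h
  simp only [Finset.sum_const, smul_eq_mul, Finset.card_univ, Finset.empty_inter,
    Finset.card_empty, add_zero] at h
  rw [Nat.even_iff]
  omega

theorem deg_mono (G : OrGraph V E) {A B : Finset E} (h : A ⊆ B) (v : V) :
    G.deg A v ≤ G.deg B v := by
  unfold OrGraph.deg
  exact Nat.add_le_add (card_le_card (filter_subset_filter _ h))
    (card_le_card (filter_subset_filter _ h))

theorem deg_union (G : OrGraph V E) {A B : Finset E} (h : Disjoint A B) (v : V) :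
    G.deg (A ∪ B) v = G.deg A v + G.deg B v := by
  unfold OrGraph.deg
  rw [filter_union, filter_union, card_union_of_disjoint (disjoint_filter_filter h),
    card_union_of_disjoint (disjoint_filter_filter h)]
  omega

theorem deg_pos_iff (G : OrGraph V E) (J : Finset E) (v : V) :
    0 < G.deg J v ↔ v ∈ ends G J := by
  unfold OrGraph.deg ends
  rw [mem_filter]
  constructor
  · intro h
    refine ⟨mem_univ _, ?_⟩
    rcases Nat.eq_zero_or_pos (J.filter (fun e => G.t e = v)).card with h0 | h0
    · rw [h0, zero_add, card_pos] at h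
      obtain ⟨e, he⟩ := h
      rw [mem_filter] at he
      exact ⟨e, he.1, Or.inr he.2⟩
    · obtain ⟨e, he⟩ := card_pos.1 h0
      rw [mem_filter] at he
      exact ⟨e, he.1, Or.inl he.2⟩
  · rintro ⟨-, e, he, h | h⟩
    · have : 0 < (J.filter (fun e => G.t e = v)).card := card_pos.2 ⟨e, mem_filter.2 ⟨he, h⟩⟩
      omega
    · have : 0 < (J.filter (fun e => G.h e = v)).card := card_pos.2 ⟨e, mem_filter.2 ⟨he, h⟩⟩
      omega

/-- CD/PAR: a set of far edges with the right parities. -/
theorem par
    (htj : ∀ (D : Finset E) (G : OrGraph V E) (T : Finset V),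
      (∀ X : Finset V, G.cut X ∩ D = ∅ → Even (X ∩ T).card) →
      ∃ K ⊆ D, ∀ v, (Odd (G.deg K v) ↔ v ∈ T))
    (G : OrGraph V E) (hc : G.Cubic) (F : Finset E) (hF : G.IsTwoFactor F)
    (S : Finset E) (hS : S ∩ F = ∅)
    (hconn : ∀ X : Finset V, X.Nonempty → Xᶜ.Nonempty → (G.cut X ∩ (F ∪ S)).Nonempty) :
    ∃ J ⊆ S, ∀ X : Finset V, G.cut X ∩ F = ∅ → Even (X.card + (X ∩ ends G J).card) := by
  obtain ⟨K, hK, hKd⟩ := htj (F ∪ S) G univ (fun X hX => by
    rw [inter_univ]
    by_cases h1 : X.Nonempty
    · by_cases h2 : Xᶜ.Nonempty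
      · have h3 := hconn X h1 h2
        rw [hX] at h3
        exact absurd h3 (by simp)
      · rw [not_nonempty_iff_eq_empty, compl_eq_empty_iff] at h2
        rw [h2, card_univ]
        exact even_card' G hc
    · rw [not_nonempty_iff_eq_empty] at h1
      rw [h1]
      simp)
  refine ⟨K ∩ S, inter_subset_right, fun X hX => ?_⟩
  have hdis : Disjoint (K ∩ F) (K ∩ S) := by
    rw [disjoint_left]
    intro e he he'
    have : e ∈ S ∩ F := mem_inter.2 ⟨(mem_inter.1 he').2, (mem_inter.1 he).2⟩
    rw [hS] at this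
    exact absurd this (notMem_empty e)
  have hKe : K = (K ∩ F) ∪ (K ∩ S) := by
    rw [← inter_union_distrib_left]
    exact (inter_eq_left.2 hK).symm
  have hle : ∀ v, G.deg (K ∩ S) v ≤ 1 := by
    intro v
    rw [← Pool.Agent.H884R2.HFP.deg_compl G hc F hF v]
    refine deg_mono G ?_ v
    intro e he
    rw [mem_compl]
    intro heF
    have : e ∈ S ∩ F := mem_inter.2 ⟨(mem_inter.1 he).2, heF⟩
    rw [hS] at this
    exact absurd this (notMem_empty e)
  have hval : ∀ v, G.deg (K ∩ S) v = if v ∈ ends G (K ∩ S) then 1 else 0 := by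
    intro v
    have h1 := deg_pos_iff G (K ∩ S) v
    have h2 := hle v
    split_ifs with h
    · have := h1.2 h
      omega
    · have : ¬ 0 < G.deg (K ∩ S) v := fun h3 => h (h1.1 h3)
      omega
  have hJ : ∑ v ∈ X, G.deg (K ∩ S) v = (X ∩ ends G (K ∩ S)).card := by
    rw [sum_congr rfl fun v _ => hval v, ← card_filter]
    congr 1
  have hFe : Even (∑ v ∈ X, G.deg (K ∩ F) v) := by
    rw [G.handshake (K ∩ F) X]
    have h1 : G.cut X ∩ (K ∩ F) = ∅ := by
      rw [← subset_empty, ← hX]
      exact inter_subset_inter_left inter_subset_right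
    rw [h1, card_empty, add_zero]
    exact even_two_mul _
  have hKe2 : Even (∑ v ∈ X, (G.deg K v + 1)) := by
    refine even_sum _ fun v _ => ?_
    exact ((hKd v).2 (mem_univ v)).add_one
  have hsum : ∑ v ∈ X, G.deg K v = ∑ v ∈ X, G.deg (K ∩ F) v + ∑ v ∈ X, G.deg (K ∩ S) v := by
    rw [← sum_add_distrib]
    refine sum_congr rfl fun v _ => ?_
    conv_lhs => rw [hKe]
    exact deg_union G hdis v
  rw [sum_add_distrib, sum_const, smul_eq_mul, mul_one, hsum, hJ] at hKe2
  rw [Nat.even_iff] at hKe2 hFe ⊢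
  omega

end det

end Pool.Agent.N887.CD
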